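import Pool.Agent.H51.EI.TargetsD
import Mathlib.NumberTheory.NumberField.ClassNumber

set_option autoImplicit false

open Polynomial Finset Pool.Agent.H51.EI

namespace Pool.Agent.H61.EI.DDK

open scoped NumberField

lemma princ (R : Type) [CommRing R] [IsDedekindDomain R] [Fintype (ClassGroup R)]
    (I : Ideal R) : ∃ e, I ^ (Fintype.card (ClassGroup R)) = Ideal.span {e} := by
  by_cases h0 : I = ⊥
  · refine ⟨0, ?_⟩
    rw [h0, ← Ideal.zero_eq_bot, zero_pow Fintype.card_ne_zero]
    simp
  · have h1 : I ∈ nonZeroDivisors (Ideal R) := mem_nonZeroDivisors_iff_ne_zero.2 h0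
    have h2 : ClassGroup.mk0 (⟨I ^ (Fintype.card (ClassGroup R)), pow_mem h1 _⟩ :
        nonZeroDivisors (Ideal R)) = 1 := by
      have h4 : (⟨I ^ (Fintype.card (ClassGroup R)), pow_mem h1 _⟩ :
        nonZeroDivisors (Ideal R)) = ⟨I, h1⟩ ^ (Fintype.card (ClassGroup R)) := rfl
      rw [h4, map_pow]
      exact pow_card_eq_one
    have h3 := (ClassGroup.mk0_eq_one_iff (pow_mem h1 _)).1 h2
    obtain ⟨e, he⟩ := h3.principal
    exact ⟨e, he⟩

lemma princ_equiv (R S : Type) [CommRing R] [CommRing S] (f : R ≃+* S) (n : ℕ)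
    (h : ∀ I : Ideal R, ∃ e, I ^ n = Ideal.span {e}) (I : Ideal S) :
    ∃ e, I ^ n = Ideal.span {e} := by
  obtain ⟨e, he⟩ := h (I.map f.symm)
  refine ⟨f e, ?_⟩
  have := congrArg (Ideal.map f) he
  rw [Ideal.map_pow, Ideal.map_span, Set.image_singleton] at this
  rw [← this, Ideal.map_symm, Ideal.map_comap_of_surjective f f.surjective]

lemma fin_of {K : Subfield ℂ} (hK : IQ K) : FiniteDimensional ℚ K := by
  apply FiniteDimensional.of_finrank_pos
  rcases hK with h | h
  · omega
  · have := h.1
    omega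

/-- the ring of integers -/
noncomputable def eqv (K : Subfield ℂ) : 𝓞 K ≃+* OI K where
  toFun x := ⟨((x : K) : ℂ), (x : K).2, by
    have h := x.2
    have h1 : IsIntegral ℤ (x : K) := NumberField.RingOfIntegers.isIntegral_coe x
    exact h1.map ((K.subtype).toIntAlgHom)⟩
  invFun y := ⟨⟨y.1, y.2.1⟩, by
    have h1 : IsIntegral ℤ (y.1 : ℂ) := y.2.2
    have h2 : IsIntegral ℤ (⟨y.1, y.2.1⟩ : K) := by
      rw [← isIntegral_algHom_iff ((K.subtype).toIntAlgHom) K.subtype.injective]
      exact h1
    exact h2⟩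
  left_inv x := by
    apply NumberField.RingOfIntegers.ext
    rfl
  right_inv y := by
    rfl
  map_mul' x y := by
    apply Subtype.ext
    simp
  map_add' x y := by
    apply Subtype.ext
    simp

lemma ded {K : Subfield ℂ} [NumberField K] : IsDedekindDomain (OI K) := by
  letI : Algebra (OI K) K := RingHom.toAlgebra
    { toFun := fun x => ⟨x.1, x.2.1⟩
      map_one' := rfl
      map_mul' := fun _ _ => rfl
      map_zero' := rfl
      map_add' := fun _ _ => rfl }
  haveI : IsIntegralClosure (OI K) ℤ K :=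
    { algebraMap_injective := by
        intro x y h
        apply Subtype.ext
        exact congrArg (fun z : K => (z : ℂ)) h
      isIntegral_iff := by
        intro x
        constructor
        · intro hx
          exact ⟨⟨x.1, x.2, hx.map ((K.subtype).toIntAlgHom)⟩, rfl⟩
        · rintro ⟨y, rfl⟩
          rw [← isIntegral_algHom_iff ((K.subtype).toIntAlgHom) K.subtype.injective]
          exact y.2.2 }
  exact IsIntegralClosure.isDedekindDomain ℤ ℚ K (OI K)

theorem pf_DDK : T_DDK := by
  intro K hK
  haveI := fin_of hK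
  haveI : NumberField K := { to_charZero := inferInstance, to_finiteDimensional := inferInstance }
  refine ⟨ded, Fintype.card (ClassGroup (𝓞 K)), Fintype.card_pos, ?_⟩
  intro I
  exact princ_equiv _ _ (eqv K) _ (princ (𝓞 K)) I

end Pool.Agent.H61.EI.DDK
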