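import Pool.Agent.H51.EI.TargetsB

set_option autoImplicit false

open Polynomial Finset Pool.Agent.H51.EI

namespace Pool.Agent.H61.EI.FOUR

theorem pf_FOUR (hFTF : T_FTF) (hFIN : T_FIN) : T_FOUR := by
  intro O X0 hD hF π
  have h1 : 0 < ((π.r : ℝ) ^ 2) := by
    have := π.hr
    have h2 : (0 : ℝ) < π.r := by exact_mod_cast this
    positivity
  exact hFIN O X0 _ hD hF h1 (hFTF O X0 π)

end Pool.Agent.H61.EI.FOUR
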