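import Pool.Agent.H51.EI.TargetsC

set_option autoImplicit false

open Polynomial Finset Pool.Agent.H51.EI

namespace Pool.Agent.H61.EI.FRC

theorem pf_FRC : T_FRC := by
  intro O z hz
  unfold KK at hz
  rw [Subfield.mem_closure_iff] at hz
  obtain ⟨y, hy, w, hw, hyw⟩ := hz
  rw [Subring.closure_eq] at hy hw
  by_cases h0 : w = 0
  · refine ⟨0, 1, one_ne_zero, ?_⟩
    rw [← hyw, h0]
    simp
  · refine ⟨⟨y, hy⟩, ⟨w, hw⟩, ?_, hyw.symm⟩
    intro h
    exact h0 (by simpa using congrArg Subtype.val h)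

end Pool.Agent.H61.EI.FRC
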